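import Pool.Agent.TH652.Dual7

/-!
# `ℓ²`-acyclicity and the Euler characteristic for the Davis manifolds of flag spheres in the class `AQ`

`HSph n G`: the flag complex `L` of `G` is a real homology manifold with the real homology of the `(n-1)`-sphere. The
Davis complex of the right-angled Coxeter group `W G` is a real homology `n`-manifold, and for a torsion-free
subgroup `F` of finite index of `W G` the Euler characteristic of the closed aspherical quotient by `F` is
`[W G : F] * chiW G`.
-/

set_option autoImplicit false

namespace Pool.Agent.Results.MP_394d50_gt.AcyclicIffEuler

open Pool.Agent.W907.SG Pool.Agent.W907.SM Pool.Agent.TH652.Above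

/-- For a flag homology `(n-1)`-sphere in the class `AQ n` all the reduced `ℓ²`-homology of the Davis complex
vanishes if and only if the Euler characteristic of the right-angled Coxeter group is zero. -/
theorem result : ∀ (n : ℕ) (V : Type) [Fintype V] [LinearOrder V] (G : SimpleGraph V), HSph n G → AQ n G →
    ((∀ i : ℕ, L2Van G i) ↔ chiW G = 0) := by
  intro n V _ _ G hS hA
  exact l2eul V G (n / 2) fun i hi => singer_AQ hS hA i (by
    intro h
    apply hi
    omega)

end Pool.Agent.Results.MP_394d50_gt.AcyclicIffEuler
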