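import Pool.Agent.TH569.HP.Closed

/-!
# Nonvanishing Euler characteristic in dimension six: curvature operator nonpositive on hyperplanes

At a point of a Riemannian six-manifold with negative sectional curvature where the curvature
operator is nonpositive on `Λ² H` for every hyperplane `H` of the tangent space (nothing is assumed
on nondegenerate bivectors), the Gauss-Bonnet-Chern integrand is negative. Quantitatively, if
`K ≤ -κ` and the curvature operator is at most `-l` on every `Λ² H`, `0 ≤ l ≤ κ`, then the integrand
is at most `-(κ ^ 3 - (4 / 5) (κ - l) ^ 3)` times its value for constant curvature one.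

The proof is in `Pool/Agent/TH569/HP/` (`Closed.lean` and the files it imports): a tensor that is
nonnegative on the bivectors of every hyperplane is nonnegative on the orthogonal complement of some
decomposable bivector (a critical point argument for the tensors `-R + ε`, then compactness), and
for these tensors the bound follows from a decomposition into four-dimensional integrands.
-/

set_option autoImplicit false

namespace Pool.Agent.Results.MP_394d50_gt.HyperplaneOperatorStrict

open Hopf6 MeasureTheory Pool.Agent.TH569.HP

/-- **Nonvanishing in dimension six** for negative curvature and a curvature operator that is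
nonpositive on `Λ² H` for every hyperplane `H`. -/
theorem result :
    (∀ (V : Type) [NormedAddCommGroup V] [InnerProductSpace ℝ V]
      (e : OrthonormalBasis (Fin 6) ℝ V) (R : V → V → V → V → ℝ), AlgCurv R →
        (SecNeg R → (∀ H : Submodule ℝ V, Module.finrank ℝ H = 5 → OpLE R 0 H) →
          Hopf6.gbc e R < 0) ∧
        ∀ κ l : ℝ, 0 ≤ l → l ≤ κ → SecLE R κ →
          (∀ H : Submodule ℝ V, Module.finrank ℝ H = 5 → OpLE R l H) →
          Hopf6.gbc e R ≤ -(roundGB κ - 4 / 5 * roundGB (κ - l))) ∧
    (∀ (M : Type) [MeasurableSpace M] (μ : Measure M) (K : CurvField M), μ ≠ 0 →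
      (∀ p, SecNeg (K.R p) ∧
        ∀ H : Submodule ℝ (K.V p), Module.finrank ℝ H = 5 → OpLE (K.R p) 0 H) →
      Integrable K.gbc μ → ∫ p, K.gbc p ∂μ < 0) := by
  refine ⟨fun V _ _ e R hR => ⟨fun hs hop => hyper_neg_strict e hR hs hop,
    fun κ l hl hlκ hs hop => hyper_neg_point e hR hl hlκ hs hop⟩, ?_⟩
  intro M _ μ K hμ h hint
  have h1 : ∀ p, 0 < -K.gbc p := by
    intro p
    obtain ⟨hs, hop⟩ := h p
    have := hyper_neg_strict (K.e p) (K.curv p) hs hop
    show 0 < -(Hopf6.gbc (K.e p) (K.R p))
    linarith
  have h2 : 0 < ∫ p, -K.gbc p ∂μ := by
    rw [integral_pos_iff_support_of_nonneg (fun p => (h1 p).le) hint.neg]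
    have hs : Function.support (fun p => -K.gbc p) = Set.univ := by
      ext p
      simp only [Function.mem_support, Set.mem_univ, iff_true]
      exact (h1 p).ne'
    rw [hs]
    exact pos_iff_ne_zero.2 (by simpa using hμ)
  rw [integral_neg] at h2
  linarith

end Pool.Agent.Results.MP_394d50_gt.HyperplaneOperatorStrict
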