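import Pool.Agent.TH594.HP.Field

/-!
# Nonvanishing of the Euler characteristic under a lower bound of the curvature operator and an upper
bound of the scalar curvature

Let `n = 2 m`. For a closed Riemannian `n`-manifold with curvature operator at least `-c` and scalar
curvature at most `-c (n - 1) (n - 2)`, where `c ≥ 0` may be any function on the manifold, the Euler
characteristic vanishes only if at almost every point with `c > 0` the scalar curvature is
exactly `-c (n - 1) (n - 2)` (its value for the product of the hyperbolic space of dimension `n - 1`
and a line).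

The proof is in `Pool/Agent/TH594/HP/` (Gallot–Meyer type inequality for exterior products).
-/

set_option autoImplicit false

namespace Pool.Agent.Results.MP_394d50_gt.NonvanishingScalarPinching

open Pool.Agent.W666.GB Pool.Agent.W669.HD MeasureTheory

/-- **Vanishing of the integral of the Gauss–Bonnet–Chern integrand forces equality in the scalar
curvature bound almost everywhere.** -/
theorem result :
    ∀ (m : ℕ) (M : Type) [MeasurableSpace M] (μ : Measure M) (K : CurvField m M) (c : M → ℝ),
      Integrable K.gb μ →
      (∀ p, 0 ≤ c p ∧ OpNonneg (addT (K.R p) fun x y z w => c p * unitT x y z w) ∧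
        scal (K.e p) (K.R p) ≤ -(c p * ((2 * m - 1) * (2 * m - 2)))) →
      ∫ p, K.gb p ∂μ = 0 →
      ∀ᵐ p ∂μ, 0 < c p →
        scal (K.e p) (K.R p) = -(c p * ((2 * m - 1) * (2 * m - 2))) := by
  intro m M _ μ K c hi h h0
  have h1 := (Pool.Agent.TH594.HP.field_sign μ K c h).2 hi
  by_contra hc
  refine absurd (h1 fun h2 => hc ?_) (by rw [h0, mul_zero]; exact lt_irrefl _)
  rw [ae_iff]
  refine measure_mono_null ?_ h2
  intro p hp
  simp only [Set.mem_setOf_eq, Classical.not_imp] at hp
  exact ⟨hp.1, lt_of_le_of_ne (h p).2.2 hp.2⟩

end Pool.Agent.Results.MP_394d50_gt.NonvanishingScalarPinching
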