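import Pool.Agent.TH570.Hopf.Scal
import Pool.Agent.TH570.Hopf.Flat

/-!
# Six-dimensional manifolds with `K ≤ -c` and `Ric ≥ -14 c`: the Euler characteristic vanishes only
for flat metrics

Let `c ≥ 0` be a function on a closed Riemannian six-manifold such that at each point all sectional
curvatures are at most `-c` and all Ricci curvatures are at least `-14 c` (single sectional
curvatures may be as low as `-10 c`). Then the Gauss-Bonnet-Chern integrand is at most
`kap6 · c² (scal / 10 + 2 c) ≤ -kap6 · c³`, where `kap6 = 15 / (8 π³)`. Hence its integral is at most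
zero, and it is zero only if the curvature tensor vanishes almost everywhere.
-/

set_option autoImplicit false

namespace Pool.Agent.Results.MP_394d50_gt.RicciLowerPinchedDimSix

open Hopf6 MeasureTheory Pool.Agent.TH570.Hopf

/-- **Ricci pinching in dimension six, nonpositive curvature.**
(1) The pointwise bound for `K ≤ -c ≤ 0` and `Ric ≥ -14 c`.
(2) For a field of curvature tensors with `K ≤ -c` and `Ric ≥ -14 c`, where `c ≥ 0` may depend on the
point, with integrable Gauss-Bonnet-Chern integrand: the integral is at most zero, and it is zero if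
and only if the curvature tensor vanishes at almost every point. -/
theorem result :
    (∀ (V : Type) [NormedAddCommGroup V] [InnerProductSpace ℝ V]
      (e : OrthonormalBasis (Fin 6) ℝ V) (R : V → V → V → V → ℝ), AlgCurv R →
      ∀ c : ℝ, 0 ≤ c → SecLe R (-c) → (∀ x : V, ‖x‖ = 1 → -(14 * c) ≤ ric e R x) →
        Hopf6.gbc e R ≤ kap6 * (c ^ 2 * (scalar e R / 10 + 2 * c)) ∧
        kap6 * (c ^ 2 * (scalar e R / 10 + 2 * c)) ≤ -(kap6 * c ^ 3)) ∧
    (∀ (M : Type) [MeasurableSpace M] (μ : Measure M) (K : CurvField M) (c : M → ℝ),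
      (∀ p, 0 ≤ c p ∧ SecLe (K.R p) (-(c p)) ∧
        ∀ x : K.V p, ‖x‖ = 1 → -(14 * c p) ≤ ric (K.e p) (K.R p) x) →
      Integrable K.gbc μ →
        ∫ p, K.gbc p ∂μ ≤ 0 ∧
        (∫ p, K.gbc p ∂μ = 0 ↔ ∀ᵐ p ∂μ, ∀ x y z w : K.V p, K.R p x y z w = 0)) := by
  have hpt : ∀ (V : Type) [NormedAddCommGroup V] [InnerProductSpace ℝ V]
      (e : OrthonormalBasis (Fin 6) ℝ V) (R : V → V → V → V → ℝ), AlgCurv R →
      ∀ c : ℝ, 0 ≤ c → SecLe R (-c) → (∀ x : V, ‖x‖ = 1 → -(14 * c) ≤ ric e R x) →
        Hopf6.gbc e R ≤ kap6 * (c ^ 2 * (scalar e R / 10 + 2 * c)) ∧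
        kap6 * (c ^ 2 * (scalar e R / 10 + 2 * c)) ≤ -(kap6 * c ^ 3) := by
    intro V _ _ e R hR c hc h hr
    refine ⟨ric_bound_neg e hR hc h hr, ?_⟩
    have hge : SecGe (fun x y z w => - R x y z w) c := fun x y hx hy hxy => by
      have := h x y hx hy hxy
      linarith
    have h1 : 30 * c ≤ scalar e (fun x y z w => - R x y z w) := scalar_ge e (neg_curv hR) hge
    rw [scalar_neg] at h1
    have hk := kap6_pos.le
    have h2 : kap6 * (c ^ 2 * (scalar e R / 10 + 2 * c)) ≤ kap6 * (-(c ^ 3)) := by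
      refine mul_le_mul_of_nonneg_left ?_ hk
      have h3 : 0 ≤ c ^ 2 * (-(scalar e R / 10 + 2 * c) - c) :=
        mul_nonneg (by positivity) (by linarith)
      nlinarith
    linarith
  refine ⟨hpt, ?_⟩
  intro M _ μ K c h hint
  have hle : ∀ p, K.gbc p ≤ -(kap6 * c p ^ 3) := fun p =>
    have h1 := hpt (K.V p) (K.e p) (K.R p) (K.curv p) (c p) (h p).1 (h p).2.1 (h p).2.2
    h1.1.trans h1.2
  have hnp : ∀ p, K.gbc p ≤ 0 := fun p =>
    (hle p).trans (neg_nonpos.2 (mul_nonneg kap6_pos.le (pow_nonneg (h p).1 3)))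
  refine ⟨integral_nonpos hnp, fun h0 => ?_, fun h0 => ?_⟩
  · have h1 : ∫ p, -(K.gbc p) ∂μ = 0 := by rw [integral_neg, h0, neg_zero]
    have h2 : (fun p => -(K.gbc p)) =ᵐ[μ] 0 :=
      (integral_eq_zero_iff_of_nonneg (fun p => neg_nonneg.2 (hnp p)) hint.neg).1 h1
    filter_upwards [h2] with p hp
    have h3 : K.gbc p = 0 := by
      have h4 : -(K.gbc p) = 0 := hp
      linarith
    have h5 : c p = 0 := by
      by_contra hne
      have hpos : 0 < c p := lt_of_le_of_ne (h p).1 (Ne.symm hne)
      have h6 := hle p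
      rw [h3] at h6
      have h7 := mul_pos kap6_pos (pow_pos hpos 3)
      linarith
    have h8 := (h p).2
    rw [h5] at h8
    simp only [neg_zero, mul_zero] at h8
    exact fun x y z w => zero_of_ric (K.e p) (K.curv p) h8.1 h8.2 x y z w
  · refine integral_eq_zero_of_ae ?_
    filter_upwards [h0] with p hp
    have h9 : K.R p = fun _ _ _ _ => 0 := by
      funext x y z w
      exact hp x y z w
    have h10 := gbc_neg (K.e p) (K.R p)
    have h11 : (fun x y z w => - K.R p x y z w) = K.R p := by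
      funext x y z w
      rw [hp x y z w, neg_zero]
    rw [h11] at h10
    have h12 : K.gbc p = Hopf6.gbc (K.e p) (K.R p) := rfl
    have h13 : K.gbc p = 0 := by
      rw [h12]
      linarith
    exact h13

end Pool.Agent.Results.MP_394d50_gt.RicciLowerPinchedDimSix
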